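import Pool.Agent.Lib.MP_87c84d_gt.FamFinal

/-!
A continuum of pairwise non-congruent convex bodies of revolution in 3-space, as close to the unit
ball as we like, all with the same maximal section area and the same projection area in every
direction.
-/

namespace Pool.Agent.Results.MP_87c84d_gt.RevolutionFamily

open Pool.Agent.Lib.MP_87c84d_gt

theorem result (δ : ℝ) (hδ : 0 < δ) :
    ∃ K : ℝ → Set (EuclideanSpace ℝ (Fin 3)),
      (∀ s : ℝ, IsCompact (K s) ∧ Convex ℝ (K s) ∧ (interior (K s)).Nonempty ∧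
        (∀ x y : EuclideanSpace ℝ (Fin 3), x 0 ^ 2 + x 1 ^ 2 = y 0 ^ 2 + y 1 ^ 2 → x 2 = y 2 →
          (x ∈ K s ↔ y ∈ K s)) ∧
        (∀ x : EuclideanSpace ℝ (Fin 3), ‖x‖ ≤ 1 - δ → x ∈ K s) ∧
        (∀ x : EuclideanSpace ℝ (Fin 3), x ∈ K s → ‖x‖ ≤ 1 + δ)) ∧
      (∀ s s' : ℝ, ∀ e : EuclideanSpace ℝ (Fin 3), ‖e‖ = 1 →
        ((⨆ t : ℝ, MeasureTheory.Measure.hausdorffMeasure (2 : ℝ)
              (K s ∩ {x : EuclideanSpace ℝ (Fin 3) | inner ℝ x e = t})) =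
          (⨆ t : ℝ, MeasureTheory.Measure.hausdorffMeasure (2 : ℝ)
              (K s' ∩ {x : EuclideanSpace ℝ (Fin 3) | inner ℝ x e = t}))) ∧
        MeasureTheory.Measure.hausdorffMeasure (2 : ℝ)
            ((fun x : EuclideanSpace ℝ (Fin 3) => x - (inner ℝ x e) • e) '' K s) =
          MeasureTheory.Measure.hausdorffMeasure (2 : ℝ)
            ((fun x : EuclideanSpace ℝ (Fin 3) => x - (inner ℝ x e) • e) '' K s')) ∧
      ∀ s s' : ℝ, s ≠ s' →
        ∀ f : EuclideanSpace ℝ (Fin 3) ≃ᵢ EuclideanSpace ℝ (Fin 3), f '' K s' ≠ K s := by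
  obtain ⟨κ, P₀, P, hκ, h, hn⟩ := exists_family (lt_min hδ one_pos)
  have a1 := hκ.trans (min_le_left _ _)
  have a2 := hκ.trans (min_le_right _ _)
  refine ⟨fun s => body (P s), fun s => ?_, fun s s' e he => ?_, hn⟩
  · obtain ⟨h1, h2, h3, h4, h5, -⟩ := h s
    refine ⟨h3, h4, h5, fun x y hxy hz => ?_, fun x hx => (h1 x ?_).1, fun x hx => ?_⟩
    · simp only [body, Set.mem_ofPred_eq, hxy, hz]
    · nlinarith [norm_nonneg x]
    · have := h2 x (Or.inl hx)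
      nlinarith [norm_nonneg x]
  · have h1 := (h s).2.2.2.2.2.2.2.2.1 e he
    have h2 := (h s').2.2.2.2.2.2.2.2.1 e he
    exact ⟨h1.1.trans h2.1.symm, h1.2.trans h2.2.symm⟩

end Pool.Agent.Results.MP_87c84d_gt.RevolutionFamily
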